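import Pool.Agent.T2M.HVInst
import Pool.Agent.T2.RowR4b

/-!
# T2M: the value determinants of R7 for the rows of `blk_row_pow` (any integer vector `x` with
`|theta x| ≤ 2^(-60 K0)`)
-/

set_option autoImplicit false

namespace T2

open Finset Matrix Complex

/-! ## Bounds for `a_n` and `l_n` -/

theorem aperyA_le_pow (n : ℕ) : ((QS2.aperyA n : ℚ) : ℝ) ≤ 34 ^ n := by
  have key : ∀ n : ℕ, QS2.aperyA n ≤ 34 ^ n ∧ QS2.aperyA (n + 1) ≤ 34 ^ (n + 1) := by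
    intro n
    induction n with
    | zero =>
      constructor <;> norm_num [QS2.aperyA, Finset.sum_range_succ]
    | succ n ih =>
      refine ⟨ih.2, ?_⟩
      have h := QS2.aperyA_rec' (n + 1) (by omega)
      have h0 : 0 ≤ QS2.aperyA n := (QS2.aperyA_pos n).le
      have h1 : 0 ≤ QS2.aperyA (n + 1) := (QS2.aperyA_pos (n + 1)).le
      have hn : (0 : ℚ) ≤ n := Nat.cast_nonneg n
      have e : n + 1 - 1 = n := rfl
      rw [e] at h
      push_cast at h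
      have h2 : QS2.ap ((n : ℚ) + 1) ≤ 34 * ((n : ℚ) + 1 + 1) ^ 3 := by
        unfold QS2.ap
        nlinarith [hn, mul_nonneg hn hn]
      have h3 : (0 : ℚ) < ((n : ℚ) + 1 + 1) ^ 3 := by positivity
      have h4 : ((n : ℚ) + 1 + 1) ^ 3 * QS2.aperyA (n + 1 + 1) ≤
          ((n : ℚ) + 1 + 1) ^ 3 * (34 * QS2.aperyA (n + 1)) := by
        rw [h]
        have h5 : 0 ≤ ((n : ℚ) + 1) ^ 3 * QS2.aperyA n := by positivity
        have h6 := mul_le_mul_of_nonneg_right h2 h1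
        linarith
      have h7 := le_of_mul_le_mul_left h4 h3
      rw [pow_succ]
      linarith [ih.2]
  have := (key n).1
  exact_mod_cast this

theorem lrem_ge (n : ℕ) : 6 / (((n : ℝ) + 1) ^ 3 * ((QS2.aperyA (n + 1) : ℚ) : ℝ)) ≤ QS2.lrem n := by
  have ha : (0 : ℝ) < ((QS2.aperyA n : ℚ) : ℝ) := by exact_mod_cast QS2.aperyA_pos n
  have ha1 : (0 : ℝ) < ((QS2.aperyA (n + 1) : ℚ) : ℝ) := by exact_mod_cast QS2.aperyA_pos (n + 1)
  have h := QS2.hasSum_lrem' n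
  have h0 := h.summable.le_tsum 0 (fun k _ => by
    have h1 : (0 : ℝ) < ((QS2.aperyA (n + k) : ℚ) : ℝ) := by
      exact_mod_cast QS2.aperyA_pos (n + k)
    have h2 : (0 : ℝ) < ((QS2.aperyA (n + k + 1) : ℚ) : ℝ) := by
      exact_mod_cast QS2.aperyA_pos (n + k + 1)
    positivity)
  rw [h.tsum_eq] at h0
  simp only [add_zero] at h0
  rw [le_div_iff₀ ha] at h0
  refine le_trans (le_of_eq ?_) h0
  field_simp

theorem lrem_inv_le (n : ℕ) : (QS2.lrem n)⁻¹ ≤ 272 ^ (n + 1) := by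
  have ha1 : (0 : ℝ) < ((QS2.aperyA (n + 1) : ℚ) : ℝ) := by exact_mod_cast QS2.aperyA_pos (n + 1)
  have h1 := lrem_ge n
  have h2 : (QS2.lrem n)⁻¹ ≤ (6 / (((n : ℝ) + 1) ^ 3 * ((QS2.aperyA (n + 1) : ℚ) : ℝ)))⁻¹ :=
    inv_anti₀ (by positivity) h1
  refine h2.trans ?_
  rw [inv_div, div_le_iff₀ (by norm_num)]
  have h3 : (n : ℝ) + 1 ≤ 2 ^ (n + 1) := by
    have := (Nat.lt_two_pow_self (n := n + 1)).le
    exact_mod_cast this
  have h4 : ((n : ℝ) + 1) ^ 3 ≤ (2 ^ (n + 1)) ^ 3 := pow_le_pow_left₀ (by positivity) h3 3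
  have h5 := aperyA_le_pow (n + 1)
  calc ((n : ℝ) + 1) ^ 3 * ((QS2.aperyA (n + 1) : ℚ) : ℝ) ≤ (2 ^ (n + 1)) ^ 3 * 34 ^ (n + 1) :=
        mul_le_mul h4 h5 ha1.le (by positivity)
    _ = 272 ^ (n + 1) := by
        rw [← pow_mul, mul_comm (n + 1) 3, pow_mul, ← mul_pow]
        norm_num
    _ ≤ 272 ^ (n + 1) * 6 := by
        have : (0 : ℝ) < 272 ^ (n + 1) := by positivity
        linarith

theorem quot_bound {n K0 : ℕ} (hn : n + 1 ≤ K0) :
    34 ^ (n + 1) * (QS2.lrem n)⁻¹ ≤ (2 : ℝ) ^ (14 * K0) := by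
  have h0 : 0 < (QS2.lrem n)⁻¹ := inv_pos.2 (QS2.lrem_pos' n)
  calc 34 ^ (n + 1) * (QS2.lrem n)⁻¹ ≤ 34 ^ (n + 1) * 272 ^ (n + 1) :=
        mul_le_mul_of_nonneg_left (lrem_inv_le n) (by positivity)
    _ = 9248 ^ (n + 1) := by rw [← mul_pow]; norm_num
    _ ≤ (2 ^ 14) ^ (n + 1) := pow_le_pow_left₀ (by norm_num) (by norm_num) _
    _ ≤ (2 ^ 14) ^ K0 := pow_le_pow_right₀ (by norm_num) hn
    _ = 2 ^ (14 * K0) := by rw [← pow_mul]

/-! ## The coefficients of the node rows -/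

/-- the coefficient of `v(N)` -/
noncomputable def tcX (x : Fin 4 → ℤ) (n : ℕ) : ℂ :=
  ((-(x 2 : ℝ) + theta x * ((QS2.aperyA n : ℚ) : ℝ) / QS2.lrem n : ℝ) : ℂ)

/-- the coefficient of `(-N)^i` -/
noncomputable def tcY (r : ℂ → ℂ) (s : ℝ) (x : Fin 4 → ℤ) (n : ℕ) : ℂ :=
  ((s * (theta x / QS2.lrem n) : ℝ) : ℂ) *
    ((((QS2.aperyA (n + 1) : ℚ) : ℝ) : ℂ) - (((QS2.aperyA n : ℚ) : ℝ) : ℂ) * r ((n : ℂ) + 1))

theorem norm_tcX_le (x : Fin 4 → ℤ) {n K0 : ℕ} (hn : n + 1 ≤ K0) {H : ℝ}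
    (hx : |(x 2 : ℝ)| ≤ H) (hθ : |theta x| ≤ (1 / 2) ^ (60 * K0)) : ‖tcX x n‖ ≤ H + 1 := by
  unfold tcX
  rw [Complex.norm_real, Real.norm_eq_abs]
  refine (abs_add_le _ _).trans ?_
  rw [abs_neg]
  refine add_le_add hx ?_
  have hl : 0 < QS2.lrem n := QS2.lrem_pos' n
  have ha : (0 : ℝ) < ((QS2.aperyA n : ℚ) : ℝ) := by exact_mod_cast QS2.aperyA_pos n
  rw [abs_div, abs_mul, abs_of_pos hl, abs_of_pos ha, div_eq_mul_inv]
  have h1 : ((QS2.aperyA n : ℚ) : ℝ) ≤ 34 ^ (n + 1) :=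
    (aperyA_le_pow n).trans (pow_le_pow_right₀ (by norm_num) (Nat.le_succ n))
  have hq := quot_bound hn
  have hli : 0 < (QS2.lrem n)⁻¹ := inv_pos.2 hl
  calc |theta x| * ((QS2.aperyA n : ℚ) : ℝ) * (QS2.lrem n)⁻¹
      = |theta x| * (((QS2.aperyA n : ℚ) : ℝ) * (QS2.lrem n)⁻¹) := by ring
    _ ≤ (1 / 2) ^ (60 * K0) * 2 ^ (14 * K0) := by
        refine mul_le_mul hθ (le_trans ?_ hq) (by positivity) (by positivity)
        exact mul_le_mul_of_nonneg_right h1 hli.le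
    _ ≤ (1 / 2) ^ (60 * K0) * 2 ^ (60 * K0) := by
        refine mul_le_mul_of_nonneg_left ?_ (by positivity)
        exact pow_le_pow_right₀ (by norm_num) (by omega)
    _ = 1 := by rw [← mul_pow]; norm_num

theorem norm_tcY_le {r : ℂ → ℂ} (hr : RFun r) {s : ℝ} (hs : s = 1 ∨ s = -1) (x : Fin 4 → ℤ)
    {n K0 c : ℕ} (hn : n + 1 ≤ K0) (hc : c ≤ K0) (hθ : |theta x| ≤ (1 / 2) ^ (60 * K0)) :
    ‖tcY r s x n‖ * (2 ^ (c + 4 * K0)) ^ 6 ≤ 1 := by
  have hl : 0 < QS2.lrem n := QS2.lrem_pos' n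
  have hli : 0 < (QS2.lrem n)⁻¹ := inv_pos.2 hl
  have ha : (0 : ℝ) < ((QS2.aperyA n : ℚ) : ℝ) := by exact_mod_cast QS2.aperyA_pos n
  have ha1 : (0 : ℝ) < ((QS2.aperyA (n + 1) : ℚ) : ℝ) := by exact_mod_cast QS2.aperyA_pos (n + 1)
  have hq := quot_bound hn
  have h1 : ‖((s * (theta x / QS2.lrem n) : ℝ) : ℂ)‖ = |theta x| * (QS2.lrem n)⁻¹ := by
    rw [Complex.norm_real, Real.norm_eq_abs, abs_mul, abs_div, abs_of_pos hl, div_eq_mul_inv]
    rcases hs with rfl | rfl <;> simp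
  have h2 : ‖(((QS2.aperyA (n + 1) : ℚ) : ℝ) : ℂ) -
      (((QS2.aperyA n : ℚ) : ℝ) : ℂ) * r ((n : ℂ) + 1)‖ ≤ 2 * 34 ^ (n + 1) := by
    refine (norm_sub_le _ _).trans ?_
    rw [norm_mul, Complex.norm_real, Complex.norm_real, Real.norm_eq_abs, Real.norm_eq_abs,
      abs_of_pos ha, abs_of_pos ha1]
    have h3 := aperyA_le_pow (n + 1)
    have h4 : ((QS2.aperyA n : ℚ) : ℝ) ≤ 34 ^ (n + 1) :=
      (aperyA_le_pow n).trans (pow_le_pow_right₀ (by norm_num) (Nat.le_succ n))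
    have h5 : ‖r ((n : ℂ) + 1)‖ ≤ 1 := by
      refine (hr.bound _ ?_).trans (by norm_num)
      simp only [add_re, natCast_re, one_re]
      positivity
    have h6 : ((QS2.aperyA n : ℚ) : ℝ) * ‖r ((n : ℂ) + 1)‖ ≤ 34 ^ (n + 1) * 1 :=
      mul_le_mul h4 h5 (norm_nonneg _) (by positivity)
    linarith
  have h7 : ‖tcY r s x n‖ ≤ (1 / 2) ^ (60 * K0) * (2 * 2 ^ (14 * K0)) := by
    unfold tcY
    rw [norm_mul, h1]
    calc |theta x| * (QS2.lrem n)⁻¹ * _ ≤ |theta x| * (QS2.lrem n)⁻¹ * (2 * 34 ^ (n + 1)) :=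
          mul_le_mul_of_nonneg_left h2 (by positivity)
      _ = |theta x| * (2 * (34 ^ (n + 1) * (QS2.lrem n)⁻¹)) := by ring
      _ ≤ (1 / 2) ^ (60 * K0) * (2 * 2 ^ (14 * K0)) := by
          refine mul_le_mul hθ ?_ (by positivity) (by positivity)
          exact mul_le_mul_of_nonneg_left hq (by norm_num)
  have h8 : ((2 : ℝ) ^ (c + 4 * K0)) ^ 6 ≤ 2 ^ (30 * K0) := by
    rw [← pow_mul]
    exact pow_le_pow_right₀ (by norm_num) (by omega)
  calc ‖tcY r s x n‖ * (2 ^ (c + 4 * K0)) ^ 6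
      ≤ (1 / 2) ^ (60 * K0) * (2 * 2 ^ (14 * K0)) * 2 ^ (30 * K0) :=
        mul_le_mul h7 h8 (by positivity) (by positivity)
    _ = (1 / 2) ^ (60 * K0) * 2 ^ (1 + 14 * K0 + 30 * K0) := by
        rw [pow_add, pow_add, pow_one]
        ring
    _ ≤ (1 / 2) ^ (60 * K0) * 2 ^ (60 * K0) := by
        refine mul_le_mul_of_nonneg_left ?_ (by positivity)
        exact pow_le_pow_right₀ (by norm_num) (by omega)
    _ = 1 := by rw [← mul_pow]; norm_num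

/-! ## The value determinants -/

/-- the rows of R7: nodes `e n + 1`, poles `pol y0` -/
noncomputable def vT (r : ℂ → ℂ) (y0 s : ℝ) (x : Fin 4 → ℤ) {c J : ℕ} (e : Fin c → ℕ) :
    Fin c ⊕ (Fin J × Bool) → Fin c → ℂ :=
  Sum.elim (fun n i => tcX x (e n) * vrow c r (s : ℂ) ((e n : ℂ) + 1) i +
      tcY r s x (e n) * (-((e n : ℂ) + 1)) ^ (i : ℕ))
    (fun p i => vrow c r (s : ℂ) (pol y0 ((p.1 : ℕ), p.2)) i)

theorem sPol_eq_pol (y0 : ℝ) {J : ℕ} (p : Fin J × Bool) : sPol y0 p = pol y0 ((p.1 : ℕ), p.2) := by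
  apply Complex.ext
  · rw [sPol_re, pol_re]
  · rw [sPol_im, pol_im]

/-- **`hV` of R7** for the rows of `blk_row_pow`, any integers `x` with `|theta x| ≤ 2^(-60 K0)`. -/
theorem hV_T {r : ℂ → ℂ} (hr : RFun r) {y0 : ℝ} (hy0 : 0 < y0) (hy1 : y0 ≤ 1 / 4)
    {s : ℝ} (hs : s = 1 ∨ s = -1) {c J K0 : ℕ} (e : Fin c → ℕ) (he : Function.Injective e)
    (heK : ∀ n, e n + 1 ≤ K0) (hc : c ≤ K0) (x : Fin 4 → ℤ) {H : ℝ} (hH : 0 ≤ H)
    (hx : |(x 2 : ℝ)| ≤ H) (hθ : |theta x| ≤ (1 / 2) ^ (60 * K0))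
    (t : Fin c ↪ Fin c ⊕ (Fin J × Bool)) :
    ‖(Matrix.of fun j i => vT r y0 s x e (t j) i).det‖ ≤
      ((1 + 3 / 100 * ((c : ℝ) + 1) ^ 2) ^ c * (2 * (H + 1)) ^ c) *
        ∏ i, ∏ j ∈ Ioi i,
          ‖Sum.elim (fun n => (e n : ℂ) + 1)
              (fun p : Fin J × Bool => pol y0 ((p.1 : ℕ), p.2)) (t j) -
            Sum.elim (fun n => (e n : ℂ) + 1)
              (fun p : Fin J × Bool => pol y0 ((p.1 : ℕ), p.2)) (t i)‖ := by
  have hσ : ((s : ℝ) : ℂ) = 1 ∨ ((s : ℝ) : ℂ) = -1 := by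
    rcases hs with rfl | rfl
    · left; simp
    · right; simp
  have h := hV_theta (J := J) hr hy0 hy1 hσ (fun n => e n + 1)
    (fun a b hab => he (Nat.succ_injective hab)) (fun n => Nat.le_add_left 1 _) heK
    (fun n => tcX x (e n)) (fun n => tcY r s x (e n)) (X := H + 1) (by linarith)
    (fun n => norm_tcX_le x (heK n) hx hθ) (fun n => norm_tcY_le hr hs x (heK n) hc hθ) t
  have e1 : ∀ p : Fin c ⊕ (Fin J × Bool), ptN (fun n => ((e n + 1 : ℕ) : ℝ)) (sPol y0) p =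
      Sum.elim (fun n => (e n : ℂ) + 1)
        (fun p : Fin J × Bool => pol y0 ((p.1 : ℕ), p.2)) p := by
    intro p
    rcases p with n | q
    · simp only [ptN, Sum.elim_inl]
      push_cast
      rfl
    · simp only [ptN, Sum.elim_inr]
      exact sPol_eq_pol y0 q
  have e2 : ∀ (p : Fin c ⊕ (Fin J × Bool)) (i : Fin c),
      vP r (s : ℂ) (fun n => ((e n + 1 : ℕ) : ℝ)) (sPol y0) (fun n => tcX x (e n))
        (fun n => tcY r s x (e n)) p i = vT r y0 s x e p i := by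
    intro p i
    rcases p with n | q
    · simp only [vP, vT, Sum.elim_inl]
      push_cast
      rfl
    · simp only [vP, vT, Sum.elim_inr]
      rw [sPol_eq_pol]
  simp only [e1, e2] at h
  exact h

/-- the rows of R7, divided by `H`: nodes `e n + 1`, poles `pol y0` (the rows of the poles are
not divided) -/
noncomputable def vTS (r : ℂ → ℂ) (y0 s : ℝ) (x : Fin 4 → ℤ) (H : ℝ) {c J : ℕ} (e : Fin c → ℕ) :
    Fin c ⊕ (Fin J × Bool) → Fin c → ℂ :=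
  Sum.elim (fun n i => tcX x (e n) / H * vrow c r (s : ℂ) ((e n : ℂ) + 1) i +
      tcY r s x (e n) / H * (-((e n : ℂ) + 1)) ^ (i : ℕ))
    (fun p i => vrow c r (s : ℂ) (pol y0 ((p.1 : ℕ), p.2)) i)

/-- **`hV` of R7** for the rows of `blk_row_pow` divided by `H`, any integers `x` with
`|x 2| ≤ H`, `|theta x| ≤ 2^(-60 K0)`; the constant does not depend on `H`. -/
theorem hV_TS {r : ℂ → ℂ} (hr : RFun r) {y0 : ℝ} (hy0 : 0 < y0) (hy1 : y0 ≤ 1 / 4)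
    {s : ℝ} (hs : s = 1 ∨ s = -1) {c J K0 : ℕ} (e : Fin c → ℕ) (he : Function.Injective e)
    (heK : ∀ n, e n + 1 ≤ K0) (hc : c ≤ K0) (x : Fin 4 → ℤ) {H : ℝ} (hH : 1 ≤ H)
    (hx : |(x 2 : ℝ)| ≤ H) (hθ : |theta x| ≤ (1 / 2) ^ (60 * K0))
    (t : Fin c ↪ Fin c ⊕ (Fin J × Bool)) :
    ‖(Matrix.of fun j i => vTS r y0 s x H e (t j) i).det‖ ≤
      ((1 + 3 / 100 * ((c : ℝ) + 1) ^ 2) ^ c * 4 ^ c) *
        ∏ i, ∏ j ∈ Ioi i,
          ‖Sum.elim (fun n => (e n : ℂ) + 1)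
              (fun p : Fin J × Bool => pol y0 ((p.1 : ℕ), p.2)) (t j) -
            Sum.elim (fun n => (e n : ℂ) + 1)
              (fun p : Fin J × Bool => pol y0 ((p.1 : ℕ), p.2)) (t i)‖ := by
  have hσ : ((s : ℝ) : ℂ) = 1 ∨ ((s : ℝ) : ℂ) = -1 := by
    rcases hs with rfl | rfl
    · left; simp
    · right; simp
  have hH0 : 0 < H := by linarith
  have hHn : ‖(H : ℂ)‖ = H := by
    rw [Complex.norm_real, Real.norm_eq_abs, abs_of_pos hH0]
  have h := hV_theta (J := J) hr hy0 hy1 hσ (fun n => e n + 1)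
    (fun a b hab => he (Nat.succ_injective hab)) (fun n => Nat.le_add_left 1 _) heK
    (fun n => tcX x (e n) / H) (fun n => tcY r s x (e n) / H) (X := 2) (by norm_num)
    (fun n => by
      rw [norm_div, hHn, div_le_iff₀ hH0]
      have := norm_tcX_le x (heK n) hx hθ
      linarith) (fun n => by
      rw [norm_div, hHn]
      refine le_trans ?_ (norm_tcY_le hr hs x (heK n) hc hθ)
      refine mul_le_mul_of_nonneg_right ?_ (by positivity)
      exact div_le_self (norm_nonneg _) hH) t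
  have e1 : ∀ p : Fin c ⊕ (Fin J × Bool), ptN (fun n => ((e n + 1 : ℕ) : ℝ)) (sPol y0) p =
      Sum.elim (fun n => (e n : ℂ) + 1)
        (fun p : Fin J × Bool => pol y0 ((p.1 : ℕ), p.2)) p := by
    intro p
    rcases p with n | q
    · simp only [ptN, Sum.elim_inl]
      push_cast
      rfl
    · simp only [ptN, Sum.elim_inr]
      exact sPol_eq_pol y0 q
  have e2 : ∀ (p : Fin c ⊕ (Fin J × Bool)) (i : Fin c),
      vP r (s : ℂ) (fun n => ((e n + 1 : ℕ) : ℝ)) (sPol y0) (fun n => tcX x (e n) / H)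
        (fun n => tcY r s x (e n) / H) p i = vTS r y0 s x H e p i := by
    intro p i
    rcases p with n | q
    · simp only [vP, vTS, Sum.elim_inl]
      push_cast
      rfl
    · simp only [vP, vTS, Sum.elim_inr]
      rw [sPol_eq_pol]
  have e3 : (2 : ℝ) * 2 = 4 := by norm_num
  simp only [e1, e2, e3] at h
  exact h

end T2
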