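import Pool.Agent.T2M.HV

/-!
# T2M: the cost of a reflected row, `∏_{l ≠ j} |t_l + N| / |t_l - N| ≤ 2^(6 (c + 4 K))`
-/

set_option autoImplicit false

namespace T2

open Finset Matrix Complex

theorem prod_Icc_eq_choose (M c : ℕ) :
    ∏ k ∈ Icc 1 c, (1 + (M : ℝ) / k) = ((c + M).choose c : ℝ) := by
  induction c with
  | zero => simp
  | succ c ih =>
    rw [Finset.prod_Icc_succ_top (by omega), ih]
    have h := Nat.add_one_mul_choose_eq (c + M) c
    have h' : ((c + M : ℕ) + 1 : ℝ) * ((c + M).choose c : ℝ) =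
        ((c + 1 + M).choose (c + 1) : ℝ) * (c + 1) := by
      have h2 : c + 1 + M = (c + M).succ := by omega
      rw [h2]
      exact_mod_cast h
    have hc : (0 : ℝ) < (c : ℝ) + 1 := by positivity
    push_cast at h' ⊢
    field_simp
    linarith

theorem prod_Icc_le (M c : ℕ) : ∏ k ∈ Icc 1 c, (1 + (M : ℝ) / k) ≤ 2 ^ (c + M) := by
  rw [prod_Icc_eq_choose]
  exact_mod_cast Nat.choose_le_two_pow (c + M) c

theorem prod_set_le (M : ℕ) : ∀ (s : ℕ) (S : Finset ℕ), S.card = s → (∀ k ∈ S, 1 ≤ k) →
    ∏ k ∈ S, (1 + (M : ℝ) / k) ≤ ∏ k ∈ Icc 1 s, (1 + (M : ℝ) / k) := by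
  intro s
  induction s with
  | zero =>
    intro S hS _
    rw [Finset.card_eq_zero.1 hS]
    simp
  | succ s ih =>
    intro S hS h1
    have hne : S.Nonempty := by
      rw [← Finset.card_pos, hS]
      omega
    set m := S.max' hne with hm
    have hmS : m ∈ S := S.max'_mem hne
    have hsub : S ⊆ Icc 1 m := fun k hk => mem_Icc.2 ⟨h1 k hk, S.le_max' k hk⟩
    have hcard : s + 1 ≤ m := by
      have := card_le_card hsub
      rw [hS, Nat.card_Icc] at this
      omega
    have h2 := ih (S.erase m) (by rw [card_erase_of_mem hmS, hS]; rfl)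
      fun k hk => h1 k (mem_of_mem_erase hk)
    rw [← Finset.mul_prod_erase S _ hmS, Finset.prod_Icc_succ_top (by omega), mul_comm]
    refine mul_le_mul h2 ?_ (by positivity) (prod_nonneg fun k _ => by positivity)
    have h3 : (0 : ℝ) < ((s + 1 : ℕ) : ℝ) := by positivity
    have h4 : ((s + 1 : ℕ) : ℝ) ≤ (m : ℝ) := by exact_mod_cast hcard
    have := div_le_div_of_nonneg_left (Nat.cast_nonneg M : (0 : ℝ) ≤ M) h3 h4
    linarith

theorem prod_key_le {c q : ℕ} (M : ℕ) (L : Finset (Fin c)) (τ : Fin c → Fin q) (d : Fin c → ℕ)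
    (hd : ∀ l ∈ L, 1 ≤ d l) (hinj : ∀ l ∈ L, ∀ l' ∈ L, τ l = τ l' → d l = d l' → l = l')
    (f : Fin c → ℝ) (hf0 : ∀ l ∈ L, 0 ≤ f l) (hf : ∀ l ∈ L, f l ≤ 1 + (M : ℝ) / d l) :
    ∏ l ∈ L, f l ≤ (2 ^ (c + M)) ^ q := by
  classical
  calc ∏ l ∈ L, f l ≤ ∏ l ∈ L, (1 + (M : ℝ) / d l) := prod_le_prod hf0 hf
    _ = ∏ a : Fin q, ∏ l ∈ L with τ l = a, (1 + (M : ℝ) / d l) :=
        (Finset.prod_fiberwise L τ _).symm
    _ ≤ ∏ _a : Fin q, (2 : ℝ) ^ (c + M) := by
        refine prod_le_prod (fun a _ => prod_nonneg fun l _ => by positivity) fun a _ => ?_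
        have hinj' : Set.InjOn d (L.filter fun l => τ l = a : Finset (Fin c)) := by
          intro l hl l' hl' h
          have h1 := (mem_filter.1 (Finset.mem_coe.1 hl))
          have h2 := (mem_filter.1 (Finset.mem_coe.1 hl'))
          exact hinj l h1.1 l' h2.1 (h1.2.trans h2.2.symm) h
        rw [← Finset.prod_image (f := fun k : ℕ => (1 + (M : ℝ) / k)) hinj']
        set S := (L.filter fun l => τ l = a).image d with hS
        have hS1 : ∀ k ∈ S, 1 ≤ k := by
          intro k hk
          obtain ⟨l, hl, rfl⟩ := mem_image.1 hk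
          exact hd l (mem_filter.1 hl).1
        have hScard : S.card ≤ c := by
          refine card_image_le.trans ((card_filter_le _ _).trans ?_)
          simpa using card_le_univ L
        refine (prod_set_le M S.card S rfl hS1).trans ?_
        refine (prod_Icc_le M S.card).trans ?_
        exact pow_le_pow_right₀ (by norm_num) (by omega)
    _ = (2 ^ (c + M)) ^ q := by simp

theorem ratio_le {N : ℝ} (hN : 0 ≤ N) {z : ℂ} {d : ℝ} (hd : 1 ≤ d) (h : d / 2 ≤ ‖z - N‖) :
    ‖z + N‖ / ‖z - N‖ ≤ 1 + 4 * N / d := by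
  have h0 : 0 < ‖z - N‖ := lt_of_lt_of_le (by linarith) h
  rw [div_le_iff₀ h0]
  have h1 : ‖z + N‖ ≤ ‖z - N‖ + 2 * N := by
    have : z + (N : ℂ) = (z - N) + ((2 * N : ℝ) : ℂ) := by push_cast; ring
    rw [this]
    refine (norm_add_le _ _).trans ?_
    rw [Complex.norm_real, Real.norm_eq_abs, abs_of_nonneg (by linarith)]
  have h2 : 2 * N ≤ 4 * N / d * ‖z - N‖ := by
    calc 2 * N = 4 * N / d * (d / 2) := by field_simp; ring
      _ ≤ 4 * N / d * ‖z - N‖ := mul_le_mul_of_nonneg_left h (by positivity)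
  linarith

theorem re_le_norm {z : ℂ} {a : ℝ} (h : a ≤ |z.re|) : a ≤ ‖z‖ := h.trans (Complex.abs_re_le_norm z)

theorem cost_le {c : ℕ} {ι : Type*} (ν : Fin c → ℕ) (hν : Function.Injective ν) {K0 : ℕ}
    (hK : ∀ n, ν n ≤ K0) (s : ι → ℂ) (kk : ι → ℕ) (sd : ι → Bool)
    (hs : ∀ e, (s e).re = (kk e : ℝ) + 1 / 2)
    (hkey : ∀ e e', kk e = kk e' → sd e = sd e' → e = e') (t : Fin c ↪ Fin c ⊕ ι) (j n : Fin c)
    (hj : t j = Sum.inl n) :
    ∏ l ∈ univ.erase j, (‖ptN (fun n => (ν n : ℝ)) s (t l) + ((ν n : ℝ) : ℂ)‖ /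
      ‖ptN (fun n => (ν n : ℝ)) s (t l) - ((ν n : ℝ) : ℂ)‖) ≤ (2 ^ (c + 4 * K0)) ^ 6 := by
  classical
  set N := ν n with hNdef
  -- the keys
  let τ : Fin c → Fin 6 := fun l => Sum.elim (fun m => if N < ν m then 0 else 1)
    (fun e => if N ≤ kk e then (if sd e then 2 else 3) else (if sd e then 4 else 5)) (t l)
  let d : Fin c → ℕ := fun l => Sum.elim (fun m => if N < ν m then ν m - N else N - ν m)
    (fun e => if N ≤ kk e then kk e - N + 1 else N - kk e) (t l)
  have hne : ∀ l ∈ univ.erase j, ∀ m, t l = Sum.inl m → ν m ≠ N := by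
    intro l hl m hm h
    have h1 : m = n := hν h
    rw [h1, ← hj] at hm
    exact ne_of_mem_erase hl (t.injective hm)
  have key := prod_key_le (q := 6) (4 * N) (univ.erase j) τ d ?_ ?_
    (fun l => ‖ptN (fun n => (ν n : ℝ)) s (t l) + ((N : ℝ) : ℂ)‖ /
      ‖ptN (fun n => (ν n : ℝ)) s (t l) - ((N : ℝ) : ℂ)‖) (fun l _ => by positivity) ?_
  · refine key.trans (pow_le_pow_left₀ (by positivity) ?_ 6)
    exact pow_le_pow_right₀ (by norm_num) (by have := hK n; omega)
  · intro l hl
    rcases h : t l with m | e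
    · have := hne l hl m h
      simp only [d, h, Sum.elim_inl]
      split_ifs <;> omega
    · simp only [d, h, Sum.elim_inr]
      split_ifs <;> omega
  · intro l hl l' hl' h1 h2
    apply t.injective
    rcases h : t l with m | e <;> rcases h' : t l' with m' | e' <;>
      simp only [τ, d, h, h', Sum.elim_inl, Sum.elim_inr] at h1 h2
    · have a1 := hne l hl m h
      have a2 := hne l' hl' m' h'
      congr 1
      apply hν
      split_ifs at h1 h2 <;> first | omega | (exact absurd h1 (by decide))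
    · exfalso
      split_ifs at h1 <;> exact absurd h1 (by decide)
    · exfalso
      split_ifs at h1 <;> exact absurd h1 (by decide)
    · congr 1
      refine hkey e e' ?_ ?_
      · split_ifs at h1 h2 <;> first | omega | (exact absurd h1 (by decide))
      · split_ifs at h1 <;> first | (simp_all; done) | (exact absurd h1 (by decide))
  · intro l hl
    rcases h : t l with m | e
    · have a1 := hne l hl m h
      have hd1 : 1 ≤ d l := by
        simp only [d, h, Sum.elim_inl]
        split_ifs <;> omega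
      have := ratio_le (N := (N : ℝ)) (Nat.cast_nonneg N) (z := ptN (fun n => (ν n : ℝ)) s (t l))
        (d := (d l : ℝ)) (by exact_mod_cast hd1) ?_
      · rw [h] at this
        push_cast at this ⊢
        exact this
      · have h3 : ((d l : ℕ) : ℝ) ≤ ‖ptN (fun n => (ν n : ℝ)) s (t l) - ((N : ℝ) : ℂ)‖ := by
          rw [h]
          apply re_le_norm
          simp only [ptN, Sum.elim_inl, Complex.sub_re, Complex.ofReal_re]
          simp only [d, h, Sum.elim_inl]
          split_ifs with h4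
          · rw [Nat.cast_sub h4.le]
            exact le_abs_self _
          · rw [Nat.cast_sub (by omega), ← neg_sub]
            exact neg_le_abs _
        have : (0 : ℝ) ≤ d l := Nat.cast_nonneg _
        linarith
    · have hd1 : 1 ≤ d l := by
        simp only [d, h, Sum.elim_inr]
        split_ifs <;> omega
      have := ratio_le (N := (N : ℝ)) (Nat.cast_nonneg N) (z := ptN (fun n => (ν n : ℝ)) s (t l))
        (d := (d l : ℝ)) (by exact_mod_cast hd1) ?_
      · rw [h] at this
        push_cast at this ⊢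
        exact this
      · rw [h]
        apply re_le_norm
        simp only [ptN, Sum.elim_inr, Complex.sub_re, Complex.ofReal_re, hs]
        simp only [d, h, Sum.elim_inr]
        split_ifs with h4
        · have h5 : ((kk e - N + 1 : ℕ) : ℝ) = (kk e : ℝ) - N + 1 := by
            push_cast [Nat.cast_sub h4]
            ring
          rw [h5]
          have h6 : (N : ℝ) ≤ kk e := by exact_mod_cast h4
          refine le_trans ?_ (le_abs_self _)
          linarith
        · have h5 : ((N - kk e : ℕ) : ℝ) = (N : ℝ) - kk e := by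
            rw [Nat.cast_sub (by omega)]
          rw [h5]
          have h6 : (kk e : ℝ) + 1 ≤ N := by exact_mod_cast (by omega : kk e + 1 ≤ N)
          refine le_trans ?_ (neg_le_abs _)
          linarith

end T2
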