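import Pool.Agent.T2M.Mixed

/-!
# T2M: the value determinants with perturbed node rows

Node rows `x_n v(N_n) + y_n ((-N_n)^i)_i` with `|x_n| ≤ X` and `|y_n| B ≤ 1`, where `B` bounds
the costs `∏ |t_l + N| / |t_l - N|`.
-/

set_option autoImplicit false

namespace T2

open Finset Matrix Complex

/-- points -/
def ptN {c : ℕ} {ι : Type*} (N : Fin c → ℝ) (s : ι → ℂ) : Fin c ⊕ ι → ℂ :=
  Sum.elim (fun n => (N n : ℂ)) s

/-- perturbed rows -/
noncomputable def vP {c : ℕ} {ι : Type*} (r : ℂ → ℂ) (σ : ℂ) (N : Fin c → ℝ) (s : ι → ℂ)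
    (x y : Fin c → ℂ) : Fin c ⊕ ι → Fin c → ℂ :=
  Sum.elim (fun n i => x n * vrow c r σ (N n) i + y n * (-(N n : ℂ)) ^ (i : ℕ))
    (fun e i => vrow c r σ (s e) i)

/-- the coefficients of the two parts of a row -/
noncomputable def cPt {c : ℕ} {ι : Type*} (x y : Fin c → ℂ) : Fin c ⊕ ι → Bool → ℂ :=
  Sum.elim (fun n b => if b then y n else x n) (fun _ b => if b then 0 else 1)

theorem vP_eq {c : ℕ} {ι : Type*} (r : ℂ → ℂ) (σ : ℂ) (N : Fin c → ℝ) (s : ι → ℂ)
    (x y : Fin c → ℂ) (p : Fin c ⊕ ι) (i : Fin c) :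
    vP r σ N s x y p i = ∑ b : Bool, cPt x y p b * mrow c r σ b (ptN N s p) i := by
  rcases p with n | e
  · simp [vP, cPt, mrow, ptN]
    ring
  · simp [vP, cPt, mrow, ptN]

theorem det_sum_bool {c : ℕ} (g : Fin c → Bool → Fin c → ℂ) :
    (Matrix.of fun n i => ∑ k, g n k i).det =
      ∑ τ : Fin c → Bool, (Matrix.of fun n i => g n (τ n) i).det := by
  classical
  have h := (Matrix.detRowAlternating (n := Fin c) (R := ℂ)).toMultilinearMap.map_sum
    (fun n k => g n k)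
  have e1 : (Matrix.of fun n i => ∑ k, g n k i) = fun n => ∑ k, g n k := by
    ext n i
    simp
  rw [e1]
  exact h

theorem rcost_le {c : ℕ} (t : Fin c → ℂ) (b : Fin c → Bool) {B : ℝ}
    (h : ∀ j, b j = true → ∏ l ∈ univ.erase j, (‖t l + t j‖ / ‖t l - t j‖) ≤ B) :
    rcost t b ≤ ∏ j, (if b j then B else 1) := by
  unfold rcost
  refine prod_le_prod (fun j _ => ?_) fun j _ => ?_
  · split_ifs
    · exact prod_nonneg fun l _ => by positivity
    · exact zero_le_one
  · split_ifs with hb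
    · exact h j hb
    · exact le_rfl

theorem rcost_nonneg {c : ℕ} (t : Fin c → ℂ) (b : Fin c → Bool) : 0 ≤ rcost t b := by
  unfold rcost
  refine prod_nonneg fun j _ => ?_
  split_ifs
  · exact prod_nonneg fun l _ => by positivity
  · exact zero_le_one

theorem mixed_det {ρ κ : ℝ} {σ : ℂ} (H : ReflStmt ρ κ σ) (hρκ : 0 ≤ ρ * κ)
    {c : ℕ} (t : Fin c → ℂ) (b : Fin c → Bool) {r : ℂ → ℂ} (hinj : Function.Injective t)
    (hre : ∀ j, 0 < (t j).re) (him : ∀ j, b j = true → (t j).im = 0)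
    (hr : ∀ s : ℂ, 0 ≤ s.re → ‖r s‖ ≤ ρ) (hd : DiffContOnCl ℂ r {s : ℂ | 0 < s.re})
    (hκ : ∀ y : ℝ, ∏ j, ‖I * (y : ℂ) - t j‖ ≤ κ * ∏ j, ‖I * (y : ℂ) + t j‖) :
    ‖(Matrix.of fun j i => mrow c r σ (b j) (t j) i).det‖ ≤
      (1 + ρ * κ) ^ c * rcost t b * ∏ i, ∏ j ∈ Ioi i, ‖t j - t i‖ := by
  have h := mixed_det_sq H hρκ c t b r hinj hre him hr hd hκ
  have h2 : (∏ i, ∏ j ∈ Ioi i, ‖t j - t i‖) ^ 2 = pdd t := by
    rw [pdd_eq_vandermonde, norm_vandermonde]
  rw [← h2, ← mul_pow] at h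
  refine le_of_sq_le_sq h ?_
  have h3 : 0 ≤ ∏ i, ∏ j ∈ Ioi i, ‖t j - t i‖ :=
    prod_nonneg fun _ _ => prod_nonneg fun _ _ => norm_nonneg _
  have h4 := rcost_nonneg t b
  have h5 : 0 ≤ (1 + ρ * κ) ^ c := by positivity
  positivity
where
  le_of_sq_le_sq {a b : ℝ} (h : a ^ 2 ≤ b ^ 2) (hb : 0 ≤ b) : a ≤ b := abs_le_of_sq_le_sq h hb |>.trans' (le_abs_self a)

theorem hV_pert {ρ κ : ℝ} {σ : ℂ} (H : ReflStmt ρ κ σ) (hρκ : 0 ≤ ρ * κ)
    {c : ℕ} {ι : Type*} (N : Fin c → ℝ) (s : ι → ℂ) {r : ℂ → ℂ} (x y : Fin c → ℂ) {X B : ℝ}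
    (hX : 1 ≤ X) (hB : 1 ≤ B) (hx : ∀ n, ‖x n‖ ≤ X) (hy : ∀ n, ‖y n‖ * B ≤ 1)
    (hinj : Function.Injective (ptN N s)) (hre : ∀ p, 0 < (ptN N s p).re)
    (hr : ∀ s : ℂ, 0 ≤ s.re → ‖r s‖ ≤ ρ) (hd : DiffContOnCl ℂ r {s : ℂ | 0 < s.re})
    (hκ : ∀ t : Fin c ↪ Fin c ⊕ ι, ∀ y : ℝ, ∏ j, ‖I * (y : ℂ) - ptN N s (t j)‖ ≤
      κ * ∏ j, ‖I * (y : ℂ) + ptN N s (t j)‖)
    (hcost : ∀ (t : Fin c ↪ Fin c ⊕ ι) (j : Fin c) (n : Fin c), t j = Sum.inl n →
      ∏ l ∈ univ.erase j, (‖ptN N s (t l) + (N n : ℂ)‖ / ‖ptN N s (t l) - (N n : ℂ)‖) ≤ B)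
    (t : Fin c ↪ Fin c ⊕ ι) :
    ‖(Matrix.of fun j i => vP r σ N s x y (t j) i).det‖ ≤
      ((1 + ρ * κ) ^ c * (2 * X) ^ c) *
        ∏ i, ∏ j ∈ Ioi i, ‖ptN N s (t j) - ptN N s (t i)‖ := by
  classical
  set W : ℝ := ∏ i, ∏ j ∈ Ioi i, ‖ptN N s (t j) - ptN N s (t i)‖ with hW
  have hW0 : 0 ≤ W := prod_nonneg fun _ _ => prod_nonneg fun _ _ => norm_nonneg _
  have hP0 : 0 ≤ (1 + ρ * κ) ^ c := by positivity
  have hterm : ∀ b : Fin c → Bool,
      ‖(Matrix.of fun j i => cPt x y (t j) (b j) * mrow c r σ (b j) (ptN N s (t j)) i).det‖ ≤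
        (1 + ρ * κ) ^ c * X ^ c * W := by
    intro b
    rw [Matrix.det_mul_column (fun j => cPt x y (t j) (b j))
      (fun j i => mrow c r σ (b j) (ptN N s (t j)) i), norm_mul, norm_prod]
    by_cases hz : ∃ j e, t j = Sum.inr e ∧ b j = true
    · obtain ⟨j, e, hj, hb⟩ := hz
      have h0 : ‖cPt x y (t j) (b j)‖ = 0 := by
        rw [hj, hb]
        simp [cPt]
      rw [Finset.prod_eq_zero (mem_univ j) h0, zero_mul]
      positivity
    · push Not at hz
      have him : ∀ j, b j = true → (ptN N s (t j)).im = 0 := by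
        intro j hb
        rcases h : t j with n | e
        · simp [ptN]
        · exact absurd hb (hz j e h)
      have h1 := mixed_det H hρκ (fun j => ptN N s (t j)) b (hinj.comp t.injective)
        (fun j => hre _) him hr hd (hκ t)
      have h2 : rcost (fun j => ptN N s (t j)) b ≤ ∏ j, (if b j then B else 1) := by
        refine rcost_le _ b fun j hb => ?_
        rcases h : t j with n | e
        · have := hcost t j n h
          simpa [ptN, h] using this
        · exact absurd hb (hz j e h)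
      have h3 : (∏ j, ‖cPt x y (t j) (b j)‖) * ∏ j, (if b j then B else 1) ≤ X ^ c := by
        rw [← prod_mul_distrib]
        have h4 : ∀ j, ‖cPt x y (t j) (b j)‖ * (if b j then B else 1) ≤ X := by
          intro j
          rcases h : t j with n | e
          · by_cases hb : b j = true
            · simp only [cPt, hb, Sum.elim_inl, if_true]
              exact (hy n).trans hX
            · simp only [cPt, hb, Sum.elim_inl, if_false, mul_one, Bool.false_eq_true]
              exact hx n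
          · by_cases hb : b j = true
            · exact absurd hb (hz j e h)
            · simp only [cPt, hb, Sum.elim_inr, if_false, mul_one, norm_one, Bool.false_eq_true]
              exact hX
        calc ∏ j, ‖cPt x y (t j) (b j)‖ * (if b j then B else 1) ≤ ∏ _j : Fin c, X :=
              prod_le_prod (fun j _ => by
                have : (0 : ℝ) ≤ if b j then B else 1 := by split_ifs <;> linarith
                positivity) fun j _ => h4 j
          _ = X ^ c := by simp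
      calc (∏ j, ‖cPt x y (t j) (b j)‖) *
            ‖(Matrix.of fun j i => mrow c r σ (b j) (ptN N s (t j)) i).det‖
          ≤ (∏ j, ‖cPt x y (t j) (b j)‖) * ((1 + ρ * κ) ^ c *
            (∏ j, (if b j then B else 1)) * W) := by
            refine mul_le_mul_of_nonneg_left (h1.trans ?_) (prod_nonneg fun _ _ => norm_nonneg _)
            exact mul_le_mul_of_nonneg_right (mul_le_mul_of_nonneg_left h2 hP0) hW0
        _ = (1 + ρ * κ) ^ c * W * ((∏ j, ‖cPt x y (t j) (b j)‖) *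
            ∏ j, (if b j then B else 1)) := by ring
        _ ≤ (1 + ρ * κ) ^ c * W * X ^ c := mul_le_mul_of_nonneg_left h3 (by positivity)
        _ = (1 + ρ * κ) ^ c * X ^ c * W := by ring
  have e1 : (Matrix.of fun j i => vP r σ N s x y (t j) i) =
      Matrix.of fun j i => ∑ b : Bool, cPt x y (t j) b * mrow c r σ b (ptN N s (t j)) i := by
    ext j i
    simp only [Matrix.of_apply]
    exact vP_eq r σ N s x y (t j) i
  rw [e1, det_sum_bool (fun j b i => cPt x y (t j) b * mrow c r σ b (ptN N s (t j)) i)]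
  refine (norm_sum_le _ _).trans ((Finset.sum_le_sum fun b _ => hterm b).trans ?_)
  rw [sum_const, card_univ, Fintype.card_fun, Fintype.card_bool, Fintype.card_fin, nsmul_eq_mul,
    mul_pow]
  push_cast
  apply le_of_eq
  ring

end T2
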