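import Pool.Agent.T2M.Cost
import Pool.Agent.T2.R6

/-!
# T2M: the value determinants of R7 with perturbed node rows (instance of `hV_pert`)
-/

set_option autoImplicit false

namespace T2

open Finset Matrix Complex

/-- the poles -/
noncomputable def sPol (y0 : ℝ) {J : ℕ} (p : Fin J × Bool) : ℂ :=
  ((p.1 : ℕ) : ℂ) + 1 / 2 + (if p.2 then (y0 : ℂ) else -(y0 : ℂ)) * I

theorem sPol_re (y0 : ℝ) {J : ℕ} (p : Fin J × Bool) : (sPol y0 p).re = ((p.1 : ℕ) : ℝ) + 1 / 2 := by
  simp only [sPol]
  split_ifs <;> simp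

theorem sPol_im (y0 : ℝ) {J : ℕ} (p : Fin J × Bool) :
    (sPol y0 p).im = if p.2 then y0 else -y0 := by
  simp only [sPol]
  split_ifs <;> simp

theorem reflStmt_all (κ : ℝ) {σ : ℂ} (hσ : σ = 1 ∨ σ = -1) : ReflStmt (3 / 100) κ σ := by
  intro c t hinj hre r hr hd hκ
  exact refl_det t hinj hre hr hd hκ σ hσ

theorem ptN_inj {c J : ℕ} (ν : Fin c → ℕ) (hν : Function.Injective ν) {y0 : ℝ} (hy0 : 0 < y0) :
    Function.Injective (ptN (fun n => (ν n : ℝ)) (sPol (J := J) y0)) := by
  intro x x' h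
  rcases x with n | p <;> rcases x' with n' | p'
  · have := congrArg Complex.re h
    simp only [ptN, Sum.elim_inl, Complex.ofReal_re] at this
    exact congrArg Sum.inl (hν (by exact_mod_cast this))
  · have := congrArg Complex.im h
    simp only [ptN, Sum.elim_inl, Sum.elim_inr, sPol_im, Complex.ofReal_im] at this
    split_ifs at this <;> linarith
  · have := congrArg Complex.im h
    simp only [ptN, Sum.elim_inl, Sum.elim_inr, sPol_im, Complex.ofReal_im] at this
    split_ifs at this <;> linarith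
  · have h1 := congrArg Complex.im h
    have h2 := congrArg Complex.re h
    simp only [ptN, Sum.elim_inr] at h1 h2
    rw [sPol_im, sPol_im] at h1
    rw [sPol_re, sPol_re] at h2
    have h3 : p.1 = p'.1 := by
      apply Fin.ext
      have : ((p.1 : ℕ) : ℝ) = ((p'.1 : ℕ) : ℝ) := by linarith
      exact_mod_cast this
    have h4 : p.2 = p'.2 := by
      rcases hb : p.2 with _ | _ <;> rcases hb' : p'.2 with _ | _ <;> simp [hb, hb'] at h1 ⊢ <;>
        linarith
    rw [Prod.ext h3 h4]

/-- The value determinants of R7 with perturbed rows: `ν n` the (positive integer) nodes,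
`x n`, `y n` the coefficients of the row `x_n v(ν_n) + y_n (-ν_n)^i`. -/
theorem hV_theta {r : ℂ → ℂ} (hr : RFun r) {y0 : ℝ} (hy0 : 0 < y0) (hy1 : y0 ≤ 1 / 4)
    {σ : ℂ} (hσ : σ = 1 ∨ σ = -1) {c J K0 : ℕ} (ν : Fin c → ℕ) (hν : Function.Injective ν)
    (hν1 : ∀ n, 1 ≤ ν n) (hνK : ∀ n, ν n ≤ K0) (x y : Fin c → ℂ) {X : ℝ} (hX : 1 ≤ X)
    (hx : ∀ n, ‖x n‖ ≤ X) (hy : ∀ n, ‖y n‖ * (2 ^ (c + 4 * K0)) ^ 6 ≤ 1)
    (t : Fin c ↪ Fin c ⊕ (Fin J × Bool)) :
    ‖(Matrix.of fun j i => vP r σ (fun n => (ν n : ℝ)) (sPol y0) x y (t j) i).det‖ ≤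
      ((1 + 3 / 100 * ((c : ℝ) + 1) ^ 2) ^ c * (2 * X) ^ c) *
        ∏ i, ∏ j ∈ Ioi i, ‖ptN (fun n => (ν n : ℝ)) (sPol y0) (t j) -
          ptN (fun n => (ν n : ℝ)) (sPol y0) (t i)‖ := by
  have hrp : ∀ p : Fin c ⊕ (Fin J × Bool), 0 < (ptN (fun n => (ν n : ℝ)) (sPol y0) p).re := by
    intro p
    rcases p with n | e
    · simp only [ptN, Sum.elim_inl, Complex.ofReal_re]
      exact_mod_cast hν1 n
    · simp only [ptN, Sum.elim_inr, sPol_re]
      positivity
  refine hV_pert (reflStmt_all (((c : ℝ) + 1) ^ 2) hσ) (by positivity) (fun n => (ν n : ℝ))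
    (sPol y0) x y hX (one_le_pow₀ (one_le_pow₀ (by norm_num))) hx hy (ptN_inj ν hν hy0) hrp
    hr.bound hr.diff ?_ ?_ t
  · intro t' y'
    refine Dec.kappa_le (fun j => ptN (fun n => (ν n : ℝ)) (sPol y0) (t' j)) (fun j => hrp _)
      (fun j => match t' j with
      | Sum.inl _ => none
      | Sum.inr p => some ((p.1 : ℕ), p.2)) ?_ ?_ ?_ y'
    · intro i i' p hi hi'
      rcases hti : t' i with n | q
      · rw [hti] at hi
        simp at hi
      · rcases hti' : t' i' with n' | q'
        · rw [hti'] at hi'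
          simp at hi'
        · rw [hti] at hi
          rw [hti'] at hi'
          simp only [Option.some.injEq] at hi hi'
          apply t'.injective
          rw [hti, hti']
          have h1 := hi.trans hi'.symm
          have h2 : q.1 = q'.1 := Fin.ext (congrArg (fun x : ℕ × Bool => x.1) h1)
          have h3 : q.2 = q'.2 := congrArg (fun x : ℕ × Bool => x.2) h1
          rw [Prod.ext h2 h3]
    · intro i hi
      rcases hti : t' i with n | q
      · simp [ptN]
      · simp only [hti] at hi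
        simp at hi
    · intro i j b hi
      rcases hti : t' i with n | q
      · simp only [hti] at hi
        simp at hi
      · simp only [hti, Option.some.injEq, Prod.mk.injEq] at hi
        simp only [ptN, Sum.elim_inr]
        rw [sPol_re, sPol_im]
        refine ⟨by rw [hi.1], ?_⟩
        split_ifs
        · rw [abs_of_pos hy0]; exact hy1
        · rw [abs_neg, abs_of_pos hy0]; exact hy1
  · intro t' j n hj
    refine cost_le ν hν hνK (sPol y0) (fun e => (e.1 : ℕ)) (fun e => e.2) (fun e => sPol_re y0 e) ?_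
      t' j n hj
    intro e e' h1 h2
    exact Prod.ext (Fin.ext h1) h2

end T2
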