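import Pool.Agent.T2.RDefs
import Pool.Agent.T2.CauHad

/-!
# T2M: determinants with rows `v(t)` and reflected rows `(-t)^i`

If the reflection lemma (module R6) holds for all functions bounded by `ρ`, then
`|det|` of a matrix with rows `v(t_j)` (`b j = false`) or `((-t_j)^i)_i` (`b j = true`, `t_j` real)
is at most `(1 + ρ κ)^c * V(t) * ∏_{b j} ∏_{l ≠ j} |t_l + t_j| / |t_l - t_j|`.
-/

set_option autoImplicit false

namespace T2

open Finset Matrix Complex

/-- the rows `(-t)^i` (`b = true`) resp. `v(t)` (`b = false`) -/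
noncomputable def mrow (c : ℕ) (r : ℂ → ℂ) (σ : ℂ) (b : Bool) (t : ℂ) : Fin c → ℂ :=
  fun i => if b then (-t) ^ (i : ℕ) else vrow c r σ t i

/-- the reflection lemma as a hypothesis -/
def ReflStmt (ρ κ : ℝ) (σ : ℂ) : Prop :=
  ∀ (c : ℕ) (t : Fin c → ℂ), Function.Injective t → (∀ j, 0 < (t j).re) → ∀ r : ℂ → ℂ,
    (∀ s : ℂ, 0 ≤ s.re → ‖r s‖ ≤ ρ) → DiffContOnCl ℂ r {s : ℂ | 0 < s.re} →
    (∀ y : ℝ, ∏ j, ‖I * (y : ℂ) - t j‖ ≤ κ * ∏ j, ‖I * (y : ℂ) + t j‖) →
    ‖(Matrix.of fun j i => vrow c r σ (t j) i).det‖ ≤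
      (1 + ρ * κ) ^ c * ∏ i, ∏ j ∈ Ioi i, ‖t j - t i‖

theorem norm_sub_le_add {N : ℝ} (hN : 0 < N) {z : ℂ} (hz : 0 ≤ z.re) :
    ‖(N : ℂ) - z‖ ≤ ‖(N : ℂ) + z‖ := by
  rw [← sq_le_sq₀ (norm_nonneg _) (norm_nonneg _), ← Complex.normSq_eq_norm_sq,
    ← Complex.normSq_eq_norm_sq, Complex.normSq_apply, Complex.normSq_apply]
  simp only [sub_re, ofReal_re, sub_im, ofReal_im, add_re, add_im]
  nlinarith [mul_nonneg hN.le hz]

theorem add_ne_zero_of_re {N : ℝ} (hN : 0 < N) {z : ℂ} (hz : 0 ≤ z.re) : (N : ℂ) + z ≠ 0 := by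
  intro h
  have := congrArg Complex.re h
  simp only [add_re, ofReal_re, zero_re] at this
  linarith

theorem norm_add_pos {N : ℝ} (hN : 0 < N) {z : ℂ} (hz : 0 ≤ z.re) : 0 < ‖(N : ℂ) + z‖ :=
  norm_pos_iff.2 (add_ne_zero_of_re hN hz)

/-- multiplication by a Blaschke factor -/
noncomputable def bl (r : ℂ → ℂ) (N : ℝ) : ℂ → ℂ := fun z => r z * (((N : ℂ) - z) / ((N : ℂ) + z))

theorem bl_bound {r : ℂ → ℂ} {ρ : ℝ} (hr : ∀ s : ℂ, 0 ≤ s.re → ‖r s‖ ≤ ρ) {N : ℝ} (hN : 0 < N) :
    ∀ s : ℂ, 0 ≤ s.re → ‖bl r N s‖ ≤ ρ := by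
  intro s hs
  unfold bl
  rw [norm_mul, norm_div]
  have h1 : ‖(N : ℂ) - s‖ / ‖(N : ℂ) + s‖ ≤ 1 := by
    rw [div_le_one (norm_add_pos hN hs)]
    exact norm_sub_le_add hN hs
  calc ‖r s‖ * (‖(N : ℂ) - s‖ / ‖(N : ℂ) + s‖) ≤ ‖r s‖ * 1 :=
        mul_le_mul_of_nonneg_left h1 (norm_nonneg _)
    _ ≤ ρ := by rw [mul_one]; exact hr s hs

theorem bl_diff {r : ℂ → ℂ} (hd : DiffContOnCl ℂ r {s : ℂ | 0 < s.re}) {N : ℝ} (hN : 0 < N) :
    DiffContOnCl ℂ (bl r N) {s : ℂ | 0 < s.re} := by
  have h1 : DiffContOnCl ℂ (fun z : ℂ => ((N : ℂ) - z) / ((N : ℂ) + z)) {s : ℂ | 0 < s.re} := by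
    apply DifferentiableOn.diffContOnCl
    have hcl : closure {s : ℂ | 0 < s.re} ⊆ {s : ℂ | 0 ≤ s.re} := by
      apply closure_minimal
      · intro s hs
        exact (le_of_lt hs : (0 : ℝ) ≤ s.re)
      · exact isClosed_le continuous_const Complex.continuous_re
    intro z hz
    have hz' : 0 ≤ z.re := hcl hz
    exact ((differentiableAt_const _).sub differentiableAt_id |>.div
      ((differentiableAt_const _).add differentiableAt_id)
      (add_ne_zero_of_re hN hz')).differentiableWithinAt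
  have h2 := hd.smul h1
  exact h2

theorem pdd_succAbove {c : ℕ} (t : Fin (c + 1) → ℂ) (j0 : Fin (c + 1)) :
    pdd t = pdd (fun l => t (j0.succAbove l)) * (∏ l, ‖t (j0.succAbove l) - t j0‖) ^ 2 := by
  have key : ∀ x : Fin (c + 1) → ℂ, pdd x = ∏ i, ∏ j, (if i = j then 1 else ‖x i - x j‖) := by
    intro x
    unfold pdd
    refine prod_congr rfl fun i _ => ?_
    rw [← Finset.mul_prod_erase univ _ (mem_univ i), if_pos rfl, one_mul]
    refine prod_congr rfl fun j hj => ?_
    rw [if_neg (Finset.ne_of_mem_erase hj).symm]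
  have key' : ∀ x : Fin c → ℂ, pdd x = ∏ i, ∏ j, (if i = j then 1 else ‖x i - x j‖) := by
    intro x
    unfold pdd
    refine prod_congr rfl fun i _ => ?_
    rw [← Finset.mul_prod_erase univ _ (mem_univ i), if_pos rfl, one_mul]
    refine prod_congr rfl fun j hj => ?_
    rw [if_neg (Finset.ne_of_mem_erase hj).symm]
  rw [key, key', Fin.prod_univ_succAbove _ j0, Fin.prod_univ_succAbove _ j0, if_pos rfl, one_mul]
  have h1 : ∀ i, ∏ j, (if j0.succAbove i = j then 1 else ‖t (j0.succAbove i) - t j‖) =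
      ‖t (j0.succAbove i) - t j0‖ *
        ∏ j, (if i = j then 1 else ‖t (j0.succAbove i) - t (j0.succAbove j)‖) := by
    intro i
    rw [Fin.prod_univ_succAbove _ j0, if_neg (Fin.succAbove_ne j0 i)]
    congr 1
    refine prod_congr rfl fun j _ => ?_
    by_cases h : i = j
    · rw [if_pos (by rw [h]), if_pos h]
    · rw [if_neg (fun h' => h (Fin.succAbove_right_injective h')), if_neg h]
  rw [prod_congr rfl fun i _ => h1 i, prod_mul_distrib]
  have h2 : ∏ j, (if j0 = j0.succAbove j then (1 : ℝ) else ‖t j0 - t (j0.succAbove j)‖) =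
      ∏ j, ‖t (j0.succAbove j) - t j0‖ := by
    refine prod_congr rfl fun j _ => ?_
    rw [if_neg (Fin.succAbove_ne j0 j).symm, norm_sub_rev]
  rw [h2]
  ring

/-- the cost of the reflected rows -/
noncomputable def rcost {c : ℕ} (t : Fin c → ℂ) (b : Fin c → Bool) : ℝ :=
  ∏ j, if b j then ∏ l ∈ univ.erase j, (‖t l + t j‖ / ‖t l - t j‖) else 1

theorem det_step {c : ℕ} {r : ℂ → ℂ} {σ : ℂ} (t : Fin (c + 1) → ℂ) (b : Fin (c + 1) → Bool)
    (hre : ∀ j, 0 < (t j).re) (j0 : Fin (c + 1)) (hb : b j0 = true) {N : ℝ} (hN : 0 < N)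
    (htN : t j0 = (N : ℂ)) :
    ‖(Matrix.of fun j i => mrow (c + 1) r σ (b j) (t j) i).det‖ =
      (∏ l, ‖if b (j0.succAbove l) then (N : ℂ) - t (j0.succAbove l)
        else (N : ℂ) + t (j0.succAbove l)‖) *
      ‖(Matrix.of fun l i => mrow c (bl r N) σ (b (j0.succAbove l)) (t (j0.succAbove l)) i).det‖ := by
  set M : Matrix (Fin (c + 1)) (Fin (c + 1)) ℂ :=
    Matrix.of fun j i => mrow (c + 1) r σ (b j) (t j) i with hM
  set f : Fin (c + 1) → ℂ := fun j => if b j then (N : ℂ) - t j else (N : ℂ) + t j with hf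
  set M' : Matrix (Fin (c + 1)) (Fin (c + 1)) ℂ :=
    Matrix.of fun j i => Fin.cases (M j 0) (fun i' => f j * mrow c (bl r N) σ (b j) (t j) i') i
    with hM'
  have hstep : ∀ (j : Fin (c + 1)) (i : Fin c),
      M j i.succ + (N : ℂ) * M j i.castSucc = f j * mrow c (bl r N) σ (b j) (t j) i := by
    intro j i
    have hne := add_ne_zero_of_re hN (hre j).le
    simp only [hM, hf, Matrix.of_apply, mrow, vrow, bl, Fin.val_succ, Fin.val_castSucc]
    by_cases h : b j = true
    · simp only [h, if_true]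
      ring
    · simp only [h, if_false, Bool.false_eq_true]
      field_simp
      ring
  have hdet : M.det = M'.det := by
    refine Matrix.det_eq_of_forall_col_eq_smul_add_pred (fun _ => -(N : ℂ)) (fun j => ?_)
      (fun j i => ?_)
    · simp only [hM', Matrix.of_apply, Fin.cases_zero]
    · simp only [hM', Matrix.of_apply, Fin.cases_succ]
      rw [← hstep j i]
      ring
  rw [hdet, Matrix.det_succ_row M' j0, Finset.sum_eq_single (0 : Fin (c + 1))]
  · have e1 : M' j0 0 = 1 := by
      simp only [hM', hM, Matrix.of_apply, Fin.cases_zero, mrow, hb, if_true, Fin.val_zero,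
        pow_zero]
    have e2 : (M'.submatrix j0.succAbove (Fin.succAbove 0)).det =
        (∏ l, f (j0.succAbove l)) * (Matrix.of fun l i =>
          mrow c (bl r N) σ (b (j0.succAbove l)) (t (j0.succAbove l)) i).det := by
      rw [← Matrix.det_mul_column]
      congr 1
    rw [e1, e2, norm_mul, norm_mul, norm_mul, norm_pow, norm_neg, norm_one, one_pow, one_mul,
      one_mul, norm_prod]
  · intro i _ hi
    obtain ⟨i', rfl⟩ := Fin.exists_succ_eq.2 hi
    have e3 : M' j0 i'.succ = 0 := by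
      simp only [hM', Matrix.of_apply, Fin.cases_succ, hf, hb, if_true, htN, sub_self, zero_mul]
    rw [e3, mul_zero, zero_mul]
  · intro h
    exact absurd (mem_univ _) h

theorem mixed_det_sq {ρ κ : ℝ} {σ : ℂ} (H : ReflStmt ρ κ σ) (hρκ : 0 ≤ ρ * κ) :
    ∀ (c : ℕ) (t : Fin c → ℂ) (b : Fin c → Bool) (r : ℂ → ℂ), Function.Injective t →
    (∀ j, 0 < (t j).re) → (∀ j, b j = true → (t j).im = 0) →
    (∀ s : ℂ, 0 ≤ s.re → ‖r s‖ ≤ ρ) → DiffContOnCl ℂ r {s : ℂ | 0 < s.re} →
    (∀ y : ℝ, ∏ j, ‖I * (y : ℂ) - t j‖ ≤ κ * ∏ j, ‖I * (y : ℂ) + t j‖) →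
    ‖(Matrix.of fun j i => mrow c r σ (b j) (t j) i).det‖ ^ 2 ≤
      (((1 + ρ * κ) ^ c) * rcost t b) ^ 2 * pdd t := by
  intro c
  induction c with
  | zero =>
    intro t b r _ _ _ _ _ _
    simp [rcost, pdd]
  | succ c ih =>
    intro t b r hinj hre him hr hd hκ
    by_cases hb : ∃ j0, b j0 = true
    · obtain ⟨j0, hj0⟩ := hb
      set N : ℝ := (t j0).re with hNdef
      have hN : 0 < N := hre j0
      have htN : t j0 = (N : ℂ) := by
        apply Complex.ext
        · simp [hNdef]
        · simp [him j0 hj0]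
      set t' : Fin c → ℂ := fun l => t (j0.succAbove l) with ht'
      set b' : Fin c → Bool := fun l => b (j0.succAbove l) with hb'
      have hκ' : ∀ y : ℝ, ∏ j, ‖I * (y : ℂ) - t' j‖ ≤ κ * ∏ j, ‖I * (y : ℂ) + t' j‖ := by
        intro y
        have h1 := hκ y
        rw [Fin.prod_univ_succAbove _ j0, Fin.prod_univ_succAbove _ j0] at h1
        have h2 : ‖I * (y : ℂ) - t j0‖ = ‖I * (y : ℂ) + t j0‖ := by
          rw [htN, ← sq_eq_sq₀ (norm_nonneg _) (norm_nonneg _), ← Complex.normSq_eq_norm_sq,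
            ← Complex.normSq_eq_norm_sq, Complex.normSq_apply, Complex.normSq_apply]
          simp
        have h3 : 0 < ‖I * (y : ℂ) + t j0‖ := by
          rw [htN, add_comm]
          exact norm_add_pos hN (by simp)
        rw [h2] at h1
        have h4 : ‖I * (y : ℂ) + t j0‖ * ∏ j, ‖I * (y : ℂ) - t' j‖ ≤
            ‖I * (y : ℂ) + t j0‖ * (κ * ∏ j, ‖I * (y : ℂ) + t' j‖) := by
          calc _ ≤ _ := h1
            _ = _ := by ring
        exact le_of_mul_le_mul_left h4 h3
      have hih := ih t' b' (bl r N) (hinj.comp Fin.succAbove_right_injective)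
        (fun l => hre _) (fun l hl => him _ hl) (bl_bound hr hN) (bl_diff hd hN) hκ'
      rw [det_step t b hre j0 hj0 hN htN, pdd_succAbove t j0]
      -- the factors
      have hfac : ∀ l, ‖if b (j0.succAbove l) then (N : ℂ) - t (j0.succAbove l)
          else (N : ℂ) + t (j0.succAbove l)‖ ≤ ‖t' l + t j0‖ := by
        intro l
        rw [htN, add_comm (t' l)]
        split_ifs with h
        · exact norm_sub_le_add hN (hre _).le
        · exact le_rfl
      have hprod : ∏ l, ‖if b (j0.succAbove l) then (N : ℂ) - t (j0.succAbove l)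
          else (N : ℂ) + t (j0.succAbove l)‖ ≤ ∏ l, ‖t' l + t j0‖ :=
        prod_le_prod (fun _ _ => norm_nonneg _) fun l _ => hfac l
      have hd0 : ∀ l, 0 < ‖t' l - t j0‖ := fun l =>
        norm_pos_iff.2 (sub_ne_zero.2 fun h => Fin.succAbove_ne j0 l (hinj h))
      -- the cost
      have hcost : (∏ l, (‖t' l + t j0‖ / ‖t' l - t j0‖)) * rcost t' b' ≤ rcost t b := by
        unfold rcost
        rw [Fin.prod_univ_succAbove _ j0, if_pos hj0]
        have e1 : ∏ l ∈ univ.erase j0, (‖t l + t j0‖ / ‖t l - t j0‖) =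
            ∏ l, (‖t' l + t j0‖ / ‖t' l - t j0‖) := by
          have h := Fin.prod_univ_succAbove
            (fun l => if l = j0 then (1 : ℝ) else ‖t l + t j0‖ / ‖t l - t j0‖) j0
          rw [if_pos rfl, one_mul, ← Finset.mul_prod_erase univ _ (mem_univ j0), if_pos rfl,
            one_mul] at h
          rw [prod_congr rfl fun l hl => ?_, h]
          · refine prod_congr rfl fun l _ => ?_
            rw [if_neg (Fin.succAbove_ne j0 l)]
          · rw [if_neg (Finset.ne_of_mem_erase hl)]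
        rw [e1]
        refine mul_le_mul_of_nonneg_left ?_ (prod_nonneg fun l _ => by positivity)
        refine prod_le_prod (fun j _ => ?_) fun j _ => ?_
        · split_ifs
          · exact prod_nonneg fun l _ => by positivity
          · exact zero_le_one
        · simp only [hb']
          by_cases hbj : b (j0.succAbove j) = true
          · simp only [hbj, if_true]
            have h := Fin.prod_univ_succAbove
              (fun l => if l = j0.succAbove j then (1 : ℝ) else
                ‖t l + t (j0.succAbove j)‖ / ‖t l - t (j0.succAbove j)‖) j0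
            rw [← Finset.mul_prod_erase univ _ (mem_univ (j0.succAbove j)), if_pos rfl,
              one_mul] at h
            rw [prod_congr rfl fun l hl => (by rw [if_neg (Finset.ne_of_mem_erase hl)] :
              (if l = j0.succAbove j then (1 : ℝ) else
                ‖t l + t (j0.succAbove j)‖ / ‖t l - t (j0.succAbove j)‖) =
                ‖t l + t (j0.succAbove j)‖ / ‖t l - t (j0.succAbove j)‖)] at h
            rw [h, if_neg (Fin.succAbove_ne j0 j).symm]
            have e2 : ∏ l, (if j0.succAbove l = j0.succAbove j then (1 : ℝ) else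
                ‖t (j0.succAbove l) + t (j0.succAbove j)‖ /
                  ‖t (j0.succAbove l) - t (j0.succAbove j)‖) =
                ∏ l ∈ univ.erase j, (‖t' l + t' j‖ / ‖t' l - t' j‖) := by
              rw [← Finset.mul_prod_erase univ _ (mem_univ j), if_pos rfl, one_mul]
              refine prod_congr rfl fun l hl => ?_
              rw [if_neg fun h' => Finset.ne_of_mem_erase hl (Fin.succAbove_right_injective h')]
            rw [e2]
            have e3 : 1 ≤ ‖t j0 + t (j0.succAbove j)‖ / ‖t j0 - t (j0.succAbove j)‖ := by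
              rw [htN, one_le_div]
              · exact norm_sub_le_add hN (hre _).le
              · have := hd0 j
                rw [norm_sub_rev, htN] at this
                exact this
            exact le_mul_of_one_le_left (prod_nonneg fun l _ => by positivity) e3
          · simp only [hbj, if_false, Bool.false_eq_true, le_refl]
      have hpd : 0 ≤ pdd t' := pdd_nonneg _
      have hD : ‖(Matrix.of fun l i => mrow c (bl r N) σ (b (j0.succAbove l))
          (t (j0.succAbove l)) i).det‖ ^ 2 ≤ ((1 + ρ * κ) ^ c * rcost t' b') ^ 2 * pdd t' := hih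
      have hrc : 0 ≤ rcost t' b' := by
        unfold rcost
        refine prod_nonneg fun j _ => ?_
        split_ifs
        · exact prod_nonneg fun l _ => by positivity
        · exact zero_le_one
      have hP : 0 < ∏ l, ‖t' l - t j0‖ := prod_pos fun l _ => hd0 l
      have e4 : (∏ l, ‖t' l + t j0‖) * rcost t' b' ≤ rcost t b * ∏ l, ‖t' l - t j0‖ := by
        rw [prod_div_distrib] at hcost
        have h5 := mul_le_mul_of_nonneg_right hcost hP.le
        have h6 : (∏ l, ‖t' l + t j0‖) / (∏ l, ‖t' l - t j0‖) * rcost t' b' *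
            ∏ l, ‖t' l - t j0‖ = (∏ l, ‖t' l + t j0‖) * rcost t' b' := by
          field_simp
        rw [h6] at h5
        exact h5
      have h1ρ : 1 ≤ 1 + ρ * κ := by linarith
      have hpow : (1 + ρ * κ) ^ c ≤ (1 + ρ * κ) ^ (c + 1) := pow_le_pow_right₀ h1ρ (Nat.le_succ c)
      rw [mul_pow]
      calc (∏ l, ‖if b (j0.succAbove l) then (N : ℂ) - t (j0.succAbove l)
            else (N : ℂ) + t (j0.succAbove l)‖) ^ 2 *
            ‖(Matrix.of fun l i => mrow c (bl r N) σ (b (j0.succAbove l))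
              (t (j0.succAbove l)) i).det‖ ^ 2
          ≤ (∏ l, ‖t' l + t j0‖) ^ 2 * (((1 + ρ * κ) ^ c * rcost t' b') ^ 2 * pdd t') :=
            mul_le_mul (pow_le_pow_left₀ (prod_nonneg fun _ _ => norm_nonneg _) hprod 2) hD
              (sq_nonneg _) (sq_nonneg _)
        _ = ((1 + ρ * κ) ^ c * ((∏ l, ‖t' l + t j0‖) * rcost t' b')) ^ 2 * pdd t' := by ring
        _ ≤ ((1 + ρ * κ) ^ (c + 1) * (rcost t b * ∏ l, ‖t' l - t j0‖)) ^ 2 * pdd t' := by
            refine mul_le_mul_of_nonneg_right (pow_le_pow_left₀ ?_ ?_ 2) hpd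
            · have : 0 ≤ ∏ l, ‖t' l + t j0‖ := prod_nonneg fun _ _ => norm_nonneg _
              positivity
            · exact mul_le_mul hpow e4 (mul_nonneg (prod_nonneg fun _ _ => norm_nonneg _) hrc)
                (by positivity)
        _ = ((1 + ρ * κ) ^ (c + 1) * rcost t b) ^ 2 *
            (pdd t' * (∏ l, ‖t' l - t j0‖) ^ 2) := by ring
    · push Not at hb
      have hb' : ∀ j, b j = false := fun j => by simpa using hb j
      have h1 := H (c + 1) t hinj hre r hr hd hκ
      have e1 : (Matrix.of fun j i => mrow (c + 1) r σ (b j) (t j) i) =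
          (Matrix.of fun j i => vrow (c + 1) r σ (t j) i) := by
        ext j i
        simp [mrow, hb' j]
      have e2 : rcost t b = 1 := by
        unfold rcost
        refine prod_eq_one fun j _ => ?_
        simp [hb' j]
      rw [e1, e2, mul_one]
      have h2 : (∏ i, ∏ j ∈ Ioi i, ‖t j - t i‖) ^ 2 = pdd t := by
        rw [pdd_eq_vandermonde, norm_vandermonde]
      rw [← h2, ← mul_pow]
      exact pow_le_pow_left₀ (norm_nonneg _) h1 2

end T2
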